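import Pool.Agent.Helper29.TB.XSB

/-!
Project TB (MP_74f661_nt), packet PCR (helper29): pair correlation of the sieve indicator.
-/

set_option autoImplicit false

open Finset

namespace Pool.Agent.Helper29.TB

open Pool.Agent.Helper33.TB
open Pool.Agent.Helper90.Twin (Ps Gz Xz yy bad card_root not_both yy_per mem_Ps)

/-- indicator of `p ∣ 6 t + c`. -/
noncomputable def Ac (p c t : ℕ) : ℝ := if p ∣ 6 * t + c then 1 else 0

theorem Ac_sum {p : ℕ} (hp : p.Prime) (h5 : 5 ≤ p) (c : ℕ) : ∑ t ∈ range p, Ac p c t = 1 := by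
  unfold Ac
  rw [Finset.sum_boole, card_root hp h5]
  norm_num

theorem dvd_two_mul {p : ℕ} (hp : p.Prime) (h5 : 5 ≤ p) {x : ℕ} (h : p ∣ 2 * x) : p ∣ x := by
  rcases (Nat.Prime.dvd_mul hp).1 h with h | h
  · have := Nat.le_of_dvd (by norm_num) h; omega
  · exact h

theorem dvd_six_mul {p : ℕ} (hp : p.Prime) (h5 : 5 ≤ p) {x : ℕ} (h : p ∣ 6 * x) : p ∣ x := by
  have h1 : p ∣ 2 * (3 * x) := by rw [← mul_assoc]; exact h
  rcases (Nat.Prime.dvd_mul hp).1 (dvd_two_mul hp h5 h1) with h | h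
  · have := Nat.le_of_dvd (by norm_num) h; omega
  · exact h

theorem yy_mul {p : ℕ} (hp : p.Prime) (h5 : 5 ≤ p) {h : ℕ} (hh : 1 ≤ h) (hnd : ¬ p ∣ h) (t : ℕ) :
    yy p t * yy p (t + h) = (if p ∣ 3 * h + 1 then Ac p 5 t else 0)
      + (if p ∣ 3 * h - 1 then Ac p 7 t else 0) := by
  have F1 : p ∣ 6 * t + 5 → ¬ p ∣ 6 * (t + h) + 5 := fun a b => hnd <| dvd_six_mul hp h5 <| by
    rw [show 6 * (t + h) + 5 = (6 * t + 5) + 6 * h by ring] at b
    exact (Nat.dvd_add_right a).1 b
  have F2 : p ∣ 6 * t + 7 → ¬ p ∣ 6 * (t + h) + 7 := fun a b => hnd <| dvd_six_mul hp h5 <| by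
    rw [show 6 * (t + h) + 7 = (6 * t + 7) + 6 * h by ring] at b
    exact (Nat.dvd_add_right a).1 b
  have F3 : p ∣ 6 * t + 5 → (p ∣ 6 * (t + h) + 7 ↔ p ∣ 3 * h + 1) := fun a => by
    rw [show 6 * (t + h) + 7 = (6 * t + 5) + 2 * (3 * h + 1) by ring, Nat.dvd_add_right a]
    exact ⟨dvd_two_mul hp h5, fun h => Dvd.dvd.mul_left h 2⟩
  have F4 : p ∣ 6 * t + 7 → (p ∣ 6 * (t + h) + 5 ↔ p ∣ 3 * h - 1) := fun a => by
    rw [show 6 * (t + h) + 5 = (6 * t + 7) + 2 * (3 * h - 1) by omega, Nat.dvd_add_right a]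
    exact ⟨dvd_two_mul hp h5, fun h => Dvd.dvd.mul_left h 2⟩
  have F6 := not_both (p := p) (k := t) h5
  unfold yy bad Ac
  by_cases a : p ∣ 6 * t + 5
  · have a' : ¬ p ∣ 6 * t + 7 := fun h => F6 ⟨a, h⟩
    have b := F1 a
    have c := F3 a
    by_cases d : p ∣ 3 * h + 1
    · have c' := c.2 d
      simp [a, a', c', d]
    · have c' : ¬ p ∣ 6 * (t + h) + 7 := fun h => d (c.1 h)
      simp [a, a', b, c', d]
  · by_cases a' : p ∣ 6 * t + 7
    · have b := F2 a'
      have c := F4 a'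
      by_cases d : p ∣ 3 * h - 1
      · have c' := c.2 d
        simp [a, a', c', d]
      · have c' : ¬ p ∣ 6 * (t + h) + 5 := fun h => d (c.1 h)
        simp [a, a', b, c', d]
    · simp [a, a']

theorem yy_zo (p t : ℕ) : yy p t * yy p t = yy p t := by
  unfold yy; split_ifs <;> simp

theorem pair_local {p : ℕ} (hp : p.Prime) (h5 : 5 ≤ p) {h : ℕ} (hh : 1 ≤ h) :
    Av p (fun t => (1 - yI p t) * (1 - yI p (t + h))) = (1 - 2 / (p : ℝ)) * wp p h := by
  have hp5 : (5 : ℝ) ≤ p := by exact_mod_cast h5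
  have n1 : (p : ℝ) ≠ 0 := by positivity
  have n2 : (p : ℝ) - 2 ≠ 0 := by linarith
  have e1 : ∑ t ∈ range p, (1 - yI p (t : ℤ)) * (1 - yI p ((t : ℤ) + h))
      = (p : ℝ) - 4 + ∑ t ∈ range p, yy p t * yy p (t + h) := by
    have e2 : ∑ t ∈ range p, yI p ((t : ℤ) + h) = 2 := by
      rw [shift_sum p (yI p) (yI_per p) h, yI_sum hp h5]
    have e3 : ∀ t ∈ range p, (1 - yI p (t : ℤ)) * (1 - yI p ((t : ℤ) + h))
        = 1 - yI p (t : ℤ) - yI p ((t : ℤ) + h) + yy p t * yy p (t + h) := by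
      intro t _
      have := yI_nat p (t + h)
      rw [Nat.cast_add] at this
      rw [← yI_nat p t, ← this]
      ring
    rw [Finset.sum_congr rfl e3, Finset.sum_add_distrib, Finset.sum_sub_distrib,
      Finset.sum_sub_distrib, e2, yI_sum hp h5]
    simp only [Finset.sum_const, card_range, nsmul_eq_mul, mul_one]
    ring
  unfold Av
  rw [e1]
  unfold wp
  by_cases hd : p ∣ h
  · rw [if_pos hd]
    obtain ⟨k, rfl⟩ := hd
    have e4 : ∀ t, yy p (t + p * k) = yy p t := by
      intro t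
      have := (show Function.Periodic (yy p) p from yy_per p).nat_mul k t
      rw [mul_comm]
      exact_mod_cast this
    have e5 : ∑ t ∈ range p, yy p t * yy p (t + p * k) = 2 := by
      rw [← Pool.Agent.Helper90.Twin.yy_sum hp h5]
      exact Finset.sum_congr rfl fun t _ => by rw [e4, yy_zo]
    rw [e5]
    field_simp
    ring
  · rw [if_neg hd]
    rw [Finset.sum_congr rfl fun t _ => yy_mul hp h5 hh hd t, Finset.sum_add_distrib]
    have g1 : ∑ t ∈ range p, (if p ∣ 3 * h + 1 then Ac p 5 t else 0)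
        = if p ∣ 3 * h + 1 then (1 : ℝ) else 0 := by
      split_ifs
      · exact Ac_sum hp h5 5
      · simp
    have g2 : ∑ t ∈ range p, (if p ∣ 3 * h - 1 then Ac p 7 t else 0)
        = if p ∣ 3 * h - 1 then (1 : ℝ) else 0 := by
      split_ifs
      · exact Ac_sum hp h5 7
      · simp
    rw [g1, g2]
    by_cases a : p ∣ 3 * h + 1
    · have b : ¬ p ∣ 3 * h - 1 := by
        intro b
        have : p ∣ (3 * h + 1) - (3 * h - 1) := Nat.dvd_sub a b
        rw [show (3 * h + 1) - (3 * h - 1) = 2 by omega] at this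
        have := Nat.le_of_dvd (by norm_num) this
        omega
      simp only [a, b, if_true, if_false, true_or]
      field_simp
      ring
    · by_cases b : p ∣ 3 * h - 1
      · simp only [a, b, if_true, if_false, or_true]
        field_simp
        ring
      · simp only [a, b, if_false, or_self]
        field_simp
        ring

theorem pair_prod (h : ℕ) : ∀ s : Finset ℕ, (∀ p ∈ s, p.Prime ∧ 5 ≤ p) →
    Av (QS s) (fun t => XS s t * XS s (t + h))
      = ∏ p ∈ s, Av p (fun t => (1 - yI p t) * (1 - yI p (t + h))) := by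
  intro s
  induction s using Finset.induction_on with
  | empty =>
    intro _
    unfold Av QS XS
    simp
  | insert p s hp ih =>
    intro hyp
    have hs : ∀ r ∈ s, r.Prime ∧ 5 ≤ r := fun r hr => hyp r (Finset.mem_insert_of_mem hr)
    have hpp := hyp p (Finset.mem_insert_self p s)
    have e : Av (QS (insert p s)) (fun t => XS (insert p s) t * XS (insert p s) (t + h))
        = Av (p * QS s) (fun t => (fun a b : ℤ => ((1 - yI p a) * (1 - yI p (a + h)))
          * (XS s b * XS s (b + h))) t t) := by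
      rw [QS_insert hp]
      unfold Av XS
      congr 1
      refine Finset.sum_congr rfl fun t _ => ?_
      simp only [Finset.prod_insert hp]
      ring
    rw [e, sPER.crt p (QS s) hpp.1.pos (QS_pos fun r hr => (hs r hr).1)
      (cop_aux (fun r hr => (hs r hr).1) hpp.1 hp)
      (fun a b : ℤ => ((1 - yI p a) * (1 - yI p (a + h))) * (XS s b * XS s (b + h)))
      (fun a b => by
        show ((1 - yI p (a + p)) * (1 - yI p (a + p + h))) * (XS s b * XS s (b + h)) = _
        rw [yI_per p a, add_right_comm, yI_per p (a + h)])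
      (fun a b => by
        show ((1 - yI p a) * (1 - yI p (a + h))) * (XS s (b + QS s) * XS s (b + QS s + h)) = _
        rw [XS_per s b, add_right_comm, XS_per s (b + h)])]
    simp only [Av_mul_const]
    rw [ih hs, Av_mul_const', Finset.prod_insert hp]

theorem sPCR : StmtPCR := by
  intro L h hh
  have hs : ∀ p ∈ Ps L, p.Prime ∧ 5 ≤ p := fun p hp => by
    rw [mem_Ps] at hp
    exact ⟨hp.2.2, hp.1⟩
  have h1 : Av (QS (Ps L)) (fun t => XS (Ps L) t * XS (Ps L) (t + h)) = Gz L * PL L h := by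
    rw [pair_prod h (Ps L) hs]
    unfold Gz Pool.Agent.Helper90.Twin.GG PL
    rw [← Finset.prod_mul_distrib]
    exact Finset.prod_congr rfl fun p hp => pair_local (hs p hp).1 (hs p hp).2 hh
  refine ⟨h1, ?_⟩
  rw [← h1]
  have hper : Per (QS (Ps L)) (fun t => XS (Ps L) t * XS (Ps L) (t - h)) := by
    intro t
    show XS (Ps L) (t + QS (Ps L)) * XS (Ps L) (t + QS (Ps L) - h)
      = XS (Ps L) t * XS (Ps L) (t - h)
    rw [XS_per (Ps L) t, show t + (QS (Ps L) : ℤ) - h = t - h + QS (Ps L) by ring,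
      XS_per (Ps L) (t - h)]
  rw [← sPER.shift _ _ hper (h : ℤ)]
  congr 1
  funext t
  show XS (Ps L) (t + h) * XS (Ps L) (t + h - h) = XS (Ps L) t * XS (Ps L) (t + h)
  rw [add_sub_cancel_right, mul_comm]

end Pool.Agent.Helper29.TB
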