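import Pool.Agent.Helper33.TB.Goals

/-!
Project TB (MP_74f661_nt), packet PER (helper29): averages of periodic functions.
-/

set_option autoImplicit false

open Finset

namespace Pool.Agent.Helper29.TB

open Pool.Agent.Helper33.TB

theorem per_int (Q : ℕ) (f : ℤ → ℝ) (h : Per Q f) (t k : ℤ) : f (t + k * Q) = f t :=
  (show Function.Periodic f (Q : ℤ) from h).int_mul k t

theorem per_emod (Q : ℕ) (f : ℤ → ℝ) (h : Per Q f) (t : ℤ) : f (t % Q) = f t := by
  have := per_int Q f h (t % Q) (t / Q)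
  rw [show t % (Q : ℤ) + t / Q * Q = t by rw [mul_comm]; exact Int.emod_add_mul_ediv t Q] at this
  exact this.symm

theorem shift_one (Q : ℕ) (f : ℤ → ℝ) (h : Per Q f) :
    ∑ t ∈ range Q, f ((t : ℤ) + 1) = ∑ t ∈ range Q, f (t : ℤ) := by
  have h1 := Finset.sum_range_succ (fun t : ℕ => f (t : ℤ)) Q
  have h2 := Finset.sum_range_succ' (fun t : ℕ => f (t : ℤ)) Q
  have h3 : f (Q : ℤ) = f 0 := by
    have := h 0
    rwa [zero_add] at this
  simp only [Nat.cast_add, Nat.cast_one, Nat.cast_zero] at h1 h2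
  linarith

theorem shift_sum (Q : ℕ) (f : ℤ → ℝ) (h : Per Q f) (k : ℤ) :
    ∑ t ∈ range Q, f ((t : ℤ) + k) = ∑ t ∈ range Q, f (t : ℤ) := by
  have step : ∀ k : ℤ, ∑ t ∈ range Q, f ((t : ℤ) + (k + 1)) = ∑ t ∈ range Q, f ((t : ℤ) + k) := by
    intro k
    have hp : Per Q (fun t => f (t + k)) := fun t => by
      show f (t + Q + k) = f (t + k)
      rw [add_right_comm, h]
    have := shift_one Q _ hp
    rw [← this]
    refine Finset.sum_congr rfl fun t _ => ?_
    congr 1; ring
  induction k using Int.induction_on with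
  | zero => simp
  | succ i ih => rw [step, ih]
  | pred i ih =>
    have := step (-(i : ℤ) - 1)
    rw [sub_add_cancel] at this
    rw [← this, ih]

theorem mult_sum (Q k : ℕ) (f : ℤ → ℝ) (h : Per Q f) :
    ∑ t ∈ range (Q * k), f (t : ℤ) = k * ∑ t ∈ range Q, f (t : ℤ) := by
  induction k with
  | zero => simp
  | succ k ih =>
    rw [Nat.mul_succ, Finset.sum_range_add, ih]
    have : ∑ x ∈ range Q, f ((Q * k + x : ℕ) : ℤ) = ∑ t ∈ range Q, f (t : ℤ) := by
      refine Finset.sum_congr rfl fun x _ => ?_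
      have := per_int Q f h (x : ℤ) k
      rw [← this]
      congr 1; push_cast; ring
    rw [this]
    push_cast; ring

theorem sPER : StmtPER where
  shift Q f h k := by
    unfold Av
    rw [shift_sum Q f h k]
  mult Q k f h hk := by
    unfold Av
    rw [mult_sum Q k f h]
    have hk' : (k : ℝ) ≠ 0 := by positivity
    rcases Nat.eq_zero_or_pos Q with hQ | hQ
    · subst hQ; simp
    · have : (Q : ℝ) ≠ 0 := by positivity
      push_cast
      field_simp
  crt Q₁ Q₂ h1 h2 hc F hF1 hF2 := by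
    have e1 : ∀ a b : ℤ, F (a % Q₁) b = F a b := fun a b => per_emod Q₁ (fun a => F a b)
      (fun t => hF1 t b) a
    have e2 : ∀ a b : ℤ, F a (b % Q₂) = F a b := fun a b => per_emod Q₂ (fun b => F a b)
      (fun t => hF2 a t) b
    have key : ∑ t ∈ range (Q₁ * Q₂), F (t : ℤ) (t : ℤ)
        = ∑ a ∈ range Q₁, ∑ b ∈ range Q₂, F (a : ℤ) (b : ℤ) := by
      rw [← Finset.sum_product']
      refine Finset.sum_nbij' (fun x => (x % Q₁, x % Q₂))
        (fun p => (Nat.chineseRemainder hc p.1 p.2 : ℕ)) ?_ ?_ ?_ ?_ ?_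
      · intro x _
        simp only [mem_product, mem_range]
        exact ⟨Nat.mod_lt _ h1, Nat.mod_lt _ h2⟩
      · rintro ⟨u, v⟩ _
        exact mem_range.2 (Nat.chineseRemainder_lt_mul hc u v h1.ne' h2.ne')
      · intro x hx
        rw [mem_range] at hx
        have h := Nat.chineseRemainder_modEq_unique hc (a := x % Q₁) (b := x % Q₂) (z := x)
          (Nat.mod_modEq x Q₁).symm (Nat.mod_modEq x Q₂).symm
        have h3 := Nat.chineseRemainder_lt_mul hc (x % Q₁) (x % Q₂) h1.ne' h2.ne'
        exact (Nat.ModEq.eq_of_lt_of_lt h hx h3).symm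
      · rintro ⟨u, v⟩ huv
        simp only [mem_product, mem_range] at huv
        obtain ⟨h3, h4⟩ := (Nat.chineseRemainder hc u v).2
        ext
        · simp only
          rw [h3, Nat.mod_eq_of_lt huv.1]
        · simp only
          rw [h4, Nat.mod_eq_of_lt huv.2]
      · intro x _
        simp only
        rw [Int.natCast_mod, Int.natCast_mod, e1, e2]
    unfold Av
    rw [key]
    have n1 : (Q₁ : ℝ) ≠ 0 := by positivity
    have n2 : (Q₂ : ℝ) ≠ 0 := by positivity
    rw [← Finset.sum_div, div_div]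
    push_cast
    rw [mul_comm (Q₁ : ℝ)]
  per_int := per_int

end Pool.Agent.Helper29.TB
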