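import Pool.Agent.Helper29.TB.PER

/-!
Project TB (MP_74f661_nt), packet XSB (helper29): the sieve indicator.
-/

set_option autoImplicit false

open Finset

namespace Pool.Agent.Helper29.TB

open Pool.Agent.Helper33.TB
open Pool.Agent.Helper90.Twin (Ps Gz Xz yy bad)

theorem yI_zo (p : ℕ) (t : ℤ) : yI p t = 0 ∨ yI p t = 1 := by
  unfold yI
  split_ifs
  · exact Or.inr rfl
  · exact Or.inl rfl

theorem yI_nonneg (p : ℕ) (t : ℤ) : 0 ≤ yI p t := by
  rcases yI_zo p t with h | h <;> rw [h]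
  exact zero_le_one

theorem yI_per (p : ℕ) : Per p (yI p) := by
  intro t
  unfold yI
  have h1 : 6 * (t + (p : ℤ)) + 5 = 6 * t + 5 + p * 6 := by ring
  have h2 : 6 * (t + (p : ℤ)) + 7 = 6 * t + 7 + p * 6 := by ring
  have e1 : ((p : ℤ) ∣ 6 * (t + (p : ℤ)) + 5) ↔ (p : ℤ) ∣ 6 * t + 5 := by
    rw [h1, dvd_add_left (Dvd.intro 6 rfl : (p : ℤ) ∣ p * 6)]
  have e2 : ((p : ℤ) ∣ 6 * (t + (p : ℤ)) + 7) ↔ (p : ℤ) ∣ 6 * t + 7 := by
    rw [h2, dvd_add_left (Dvd.intro 6 rfl : (p : ℤ) ∣ p * 6)]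
  simp only [e1, e2]

theorem XS_zo (s : Finset ℕ) (t : ℤ) : XS s t = 0 ∨ XS s t = 1 := by
  unfold XS
  induction s using Finset.induction_on with
  | empty => right; simp
  | insert p s hp ih =>
    rw [Finset.prod_insert hp]
    rcases yI_zo p t with h | h
    · rw [h]; simpa using ih
    · rw [h]; left; simp

theorem XS_per (s : Finset ℕ) : Per (QS s) (XS s) := by
  intro t
  unfold XS
  refine Finset.prod_congr rfl fun p hp => ?_
  have h : (QS s : ℤ) = ((∏ r ∈ s.erase p, r : ℕ) : ℤ) * p := by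
    unfold QS
    rw [← Finset.mul_prod_erase s _ hp]
    push_cast; ring
  rw [h, per_int p (yI p) (yI_per p)]

theorem QS_pos {s : Finset ℕ} (hs : ∀ p ∈ s, p.Prime) : 0 < QS s :=
  Finset.prod_pos fun p hp => (hs p hp).pos

theorem yI_nat (p t : ℕ) : yI p (t : ℤ) = yy p t := by
  unfold yI yy bad
  have h1 : ((p : ℤ) ∣ 6 * (t : ℤ) + 5) ↔ p ∣ 6 * t + 5 := by
    rw [← Int.natCast_dvd_natCast]; push_cast; rfl
  have h2 : ((p : ℤ) ∣ 6 * (t : ℤ) + 7) ↔ p ∣ 6 * t + 7 := by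
    rw [← Int.natCast_dvd_natCast]; push_cast; rfl
  by_cases h : (p ∣ 6 * t + 5 ∨ p ∣ 6 * t + 7)
  · rw [if_pos h, if_pos (by rw [h1, h2]; exact h)]
  · rw [if_neg h, if_neg (by rw [h1, h2]; exact h)]

theorem yI_sum {p : ℕ} (hp : p.Prime) (h5 : 5 ≤ p) : ∑ x ∈ range p, yI p (x : ℤ) = 2 := by
  rw [← Pool.Agent.Helper90.Twin.yy_sum hp h5]
  exact Finset.sum_congr rfl fun x _ => yI_nat p x

theorem QS_insert {s : Finset ℕ} {p : ℕ} (hp : p ∉ s) : QS (insert p s) = p * QS s :=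
  Finset.prod_insert hp

theorem cop_aux {s : Finset ℕ} {p : ℕ} (hs : ∀ r ∈ s, r.Prime) (hpp : p.Prime) (hp : p ∉ s) :
    Nat.Coprime p (QS s) := by
  unfold QS
  refine Nat.Coprime.prod_right fun r hr => ?_
  exact (Nat.coprime_primes hpp (hs r hr)).2 fun h => hp (h ▸ hr)

theorem Av_mul_const (Q : ℕ) (c : ℝ) (f : ℤ → ℝ) : Av Q (fun t => c * f t) = c * Av Q f := by
  unfold Av
  rw [← Finset.mul_sum, mul_div_assoc]

theorem Av_mul_const' (Q : ℕ) (c : ℝ) (f : ℤ → ℝ) : Av Q (fun t => f t * c) = Av Q f * c := by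
  unfold Av
  rw [← Finset.sum_mul, div_mul_eq_mul_div]

theorem XS_mean : ∀ s : Finset ℕ, (∀ p ∈ s, p.Prime ∧ 5 ≤ p) → Av (QS s) (XS s) = gS s := by
  intro s
  induction s using Finset.induction_on with
  | empty =>
    intro _
    unfold Av QS XS gS
    simp
  | insert p s hp ih =>
    intro h
    have hs : ∀ r ∈ s, r.Prime ∧ 5 ≤ r := fun r hr => h r (Finset.mem_insert_of_mem hr)
    have hpp := h p (Finset.mem_insert_self p s)
    have e : Av (QS (insert p s)) (XS (insert p s))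
        = Av (p * QS s) (fun t => (fun a b : ℤ => (1 - yI p a) * XS s b) t t) := by
      rw [QS_insert hp]
      unfold Av XS
      simp only [Finset.prod_insert hp]
    rw [e, sPER.crt p (QS s) hpp.1.pos (QS_pos fun r hr => (hs r hr).1)
      (cop_aux (fun r hr => (hs r hr).1) hpp.1 hp) (fun a b : ℤ => (1 - yI p a) * XS s b)
      (fun a b => by show (1 - yI p (a + p)) * XS s b = _; rw [yI_per p a])
      (fun a b => by show (1 - yI p a) * XS s (b + QS s) = _; rw [XS_per s b])]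
    simp only [Av_mul_const, Av_mul_const', ih hs]
    have h2 : Av p (fun a => 1 - yI p a) = 1 - 2 / (p : ℝ) := by
      unfold Av
      rw [Finset.sum_sub_distrib, yI_sum hpp.1 hpp.2]
      have : (p : ℝ) ≠ 0 := by exact_mod_cast hpp.1.ne_zero
      simp only [Finset.sum_const, card_range, nsmul_eq_mul, mul_one]
      field_simp
    rw [h2]
    unfold gS
    rw [Finset.prod_insert hp]

theorem gS_pos {s : Finset ℕ} (h : ∀ p ∈ s, p.Prime ∧ 5 ≤ p) : 0 < gS s := by
  unfold gS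
  refine Finset.prod_pos fun p hp => ?_
  have h5 : (5 : ℝ) ≤ p := by exact_mod_cast (h p hp).2
  rw [sub_pos, div_lt_one (by linarith)]
  linarith

theorem yI_eq_one {p : ℕ} {t : ℤ} (h : yI p t = 1) :
    (p : ℤ) ∣ 6 * t + 5 ∨ (p : ℤ) ∣ 6 * t + 7 := by
  unfold yI at h
  by_contra hc
  rw [if_neg hc] at h
  norm_num at h

theorem sep_aux (p H : ℕ) (hp : p.Prime) (h5 : 5 ≤ p) (hH : 3 * H + 1 < p) (t : ℤ) (i j : ℕ)
    (hi : i ≤ H) (hj : j ≤ H) (h1 : yI p (t + i) = 1) (h2 : yI p (t + j) = 1) : i = j := by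
  by_contra hij
  have hb1 := yI_eq_one h1
  have hb2 := yI_eq_one h2
  have hpZ : Prime (p : ℤ) := Nat.prime_iff_prime_int.1 hp
  have key : ∀ e : ℤ, (e = 0 ∨ e = 1 ∨ e = -1) →
      (p : ℤ) ∣ 2 * (3 * ((i : ℤ) - j) + e) → False := by
    intro e he hdvd
    rcases hpZ.dvd_or_dvd hdvd with h | h
    · have := Int.le_of_dvd (by norm_num) h
      omega
    · have h2 : |3 * ((i : ℤ) - j) + e| < p := by
        rw [abs_lt]
        constructor <;> omega
      have h3 := Int.eq_zero_of_abs_lt_dvd h h2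
      omega
  rcases hb1 with ha | ha <;> rcases hb2 with hb | hb
  · apply key 0 (Or.inl rfl)
    have h2 := dvd_sub ha hb
    have h3 : 6 * (t + (i : ℤ)) + 5 - (6 * (t + (j : ℤ)) + 5) = 2 * (3 * ((i : ℤ) - j) + 0) := by
      ring
    rwa [h3] at h2
  · apply key (-1) (Or.inr (Or.inr rfl))
    have h2 := dvd_sub ha hb
    have h3 : 6 * (t + (i : ℤ)) + 5 - (6 * (t + (j : ℤ)) + 7)
        = 2 * (3 * ((i : ℤ) - j) + (-1)) := by
      ring
    rwa [h3] at h2
  · apply key 1 (Or.inr (Or.inl rfl))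
    have h2 := dvd_sub ha hb
    have h3 : 6 * (t + (i : ℤ)) + 7 - (6 * (t + (j : ℤ)) + 5) = 2 * (3 * ((i : ℤ) - j) + 1) := by
      ring
    rwa [h3] at h2
  · apply key 0 (Or.inl rfl)
    have h2 := dvd_sub ha hb
    have h3 : 6 * (t + (i : ℤ)) + 7 - (6 * (t + (j : ℤ)) + 7) = 2 * (3 * ((i : ℤ) - j) + 0) := by
      ring
    rwa [h3] at h2

theorem cnt_aux (p b : ℕ) (hp : p.Prime) (h5 : 5 ≤ p) (t : ℤ) :
    Nb (yI p) b t ≤ 2 * ((b : ℝ) / p + 1) := by
  have hpp : Per p (fun i => yI p (t + i)) := fun i => by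
    show yI p (t + (i + p)) = yI p (t + i)
    rw [← add_assoc, yI_per p]
  have hb : b ≤ p * (b / p + 1) := (Nat.lt_mul_div_succ b hp.pos).le
  have h1 : Nb (yI p) b t ≤ ∑ i ∈ range (p * (b / p + 1)), yI p (t + (i : ℤ)) := by
    unfold Nb
    refine Finset.sum_le_sum_of_subset_of_nonneg (Finset.range_mono hb) fun i _ _ => ?_
    exact yI_nonneg p _
  have h2 : ∑ i ∈ range (p * (b / p + 1)), yI p (t + (i : ℤ))
      = ((b / p + 1 : ℕ) : ℝ) * ∑ i ∈ range p, yI p (t + (i : ℤ)) :=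
    mult_sum p (b / p + 1) (fun i => yI p (t + i)) hpp
  have h3 : ∑ i ∈ range p, yI p (t + (i : ℤ)) = 2 := by
    rw [← yI_sum hp h5, ← shift_sum p (yI p) (yI_per p) t]
    exact Finset.sum_congr rfl fun x _ => by rw [add_comm]
  rw [h2, h3] at h1
  have h4 : ((b / p : ℕ) : ℝ) ≤ (b : ℝ) / p := Nat.cast_div_le
  push_cast at h1
  linarith

theorem sXSB : StmtXSB where
  yzo := yI_zo
  yper := yI_per
  zo := XS_zo
  per := XS_per
  mul s s' h t := by
    unfold XS
    rw [Finset.prod_union h]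
  cop s s' hs hs' hd := by
    refine ⟨?_, ?_, QS_pos hs⟩
    · show Nat.Coprime (∏ p ∈ s, p) (QS s')
      refine Nat.Coprime.prod_left fun p hp => ?_
      exact cop_aux hs' (hs p hp) (Finset.disjoint_left.1 hd hp)
    · unfold QS
      rw [Finset.prod_union hd]
  two p hp h5 := by
    unfold Av
    rw [yI_sum hp h5]
  mean := XS_mean
  sep := sep_aux
  cnt := cnt_aux
  ne s hs := by
    refine ⟨QS_pos fun p hp => (hs p hp).1, XS_per s, XS_zo s, ?_⟩
    by_contra hc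
    push Not at hc
    have h0 : ∀ t, XS s t = 0 := fun t => (XS_zo s t).resolve_right (hc t)
    have h1 := XS_mean s hs
    have h2 : Av (QS s) (XS s) = 0 := by
      unfold Av
      simp only [h0, Finset.sum_const_zero, zero_div]
    have := gS_pos hs
    rw [← h1, h2] at this
    exact lt_irrefl _ this
  nat z t := by
    unfold XS Xz Pool.Agent.Helper90.Twin.XX
    exact Finset.prod_congr rfl fun p _ => by rw [yI_nat]
  dens z := rfl

end Pool.Agent.Helper29.TB
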